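import Pool.Agent.Helper30.EC.SEC1

open MvPolynomial Pool.Agent.Helper75.EC

universe w

namespace Pool.Agent.Helper30.EC

variable {K : Type*} [Field K] {n : ℕ}

theorem BV_sum_cix {M : Type*} [AddCommMonoid M] (α β : ℕ) (f : ℕ → M) :
    ∑ c : Fin α ⊕ Fin β, f (cix α β c) = ∑ k ∈ Finset.range (α + β), f k := by
  rw [Fintype.sum_sum_type, Finset.sum_range_add, Finset.sum_range, Finset.sum_range]
  rfl

theorem BV_row (N : ℕ) (m : Fin N → K) (P Q : Polynomial K) (r α β : ℕ)
    (hQ : Q.natDegree < α + β) :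
    ∑ c : Fin α ⊕ Fin β, (∑ k : Fin N, (P * Polynomial.X ^ (r + cix α β c)).coeff k * m k) *
      Q.coeff (cix α β c) = ∑ k : Fin N, (P * Polynomial.X ^ r * Q).coeff k * m k := by
  have hQ' : Q = ∑ c : Fin α ⊕ Fin β,
      Polynomial.C (Q.coeff (cix α β c)) * Polynomial.X ^ (cix α β c) := by
    rw [BV_sum_cix α β (fun k => Polynomial.C (Q.coeff k) * Polynomial.X ^ k)]
    exact Q.as_sum_range_C_mul_X_pow' hQ
  have hc : ∀ k : ℕ, (P * Polynomial.X ^ r * Q).coeff k = ∑ c : Fin α ⊕ Fin β,
      (P * Polynomial.X ^ (r + cix α β c)).coeff k * Q.coeff (cix α β c) := by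
    intro k
    conv_lhs => rw [hQ']
    rw [Finset.mul_sum, Polynomial.finsetSum_coeff]
    refine Finset.sum_congr rfl fun c _ => ?_
    rw [show P * Polynomial.X ^ r * (Polynomial.C (Q.coeff (cix α β c)) *
      Polynomial.X ^ (cix α β c)) = Polynomial.C (Q.coeff (cix α β c)) *
      (P * Polynomial.X ^ (r + cix α β c)) by rw [pow_add]; ring, Polynomial.coeff_C_mul,
      mul_comm]
  simp only [hc, Finset.sum_mul]
  rw [Finset.sum_comm]
  refine Finset.sum_congr rfl fun k _ => Finset.sum_congr rfl fun c _ => ?_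
  ring

/-- the homogenisation of `R * (s X - t)` vanishes at `(s, t)` -/
theorem BV_hom (d : ℕ) (R : Polynomial K) (hR : R.natDegree < d) (s t : K) :
    ∑ k : Fin (d + 1), (R * (Polynomial.C s * Polynomial.X - Polynomial.C t)).coeff k *
      (s ^ (d - (k : ℕ)) * t ^ (k : ℕ)) = 0 := by
  have hdeg : (R * (Polynomial.C s * Polynomial.X - Polynomial.C t)).natDegree < d + 1 := by
    have h1 : (Polynomial.C s * Polynomial.X - Polynomial.C t).natDegree ≤ 1 := by
      refine (Polynomial.natDegree_sub_le _ _).trans ?_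
      rw [Polynomial.natDegree_C]
      exact max_le ((Polynomial.natDegree_C_mul_le _ _).trans Polynomial.natDegree_X_le) (Nat.zero_le _)
    have := Polynomial.natDegree_mul_le (p := R)
      (q := Polynomial.C s * Polynomial.X - Polynomial.C t)
    omega
  by_cases hs : s = 0
  · rw [Finset.sum_eq_zero]
    intro k _
    by_cases hk : (k : ℕ) = d
    · have : (R * (Polynomial.C s * Polynomial.X - Polynomial.C t)).coeff k = 0 := by
        rw [hs, map_zero, zero_mul, zero_sub, mul_neg, Polynomial.coeff_neg,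
          Polynomial.coeff_mul_C, hk, Polynomial.coeff_eq_zero_of_natDegree_lt hR, zero_mul,
          neg_zero]
      rw [this, zero_mul]
    · have hlt := k.2
      rw [hs, zero_pow (by omega), zero_mul, mul_zero]
  · have h1 : ∀ k : Fin (d + 1), (R * (Polynomial.C s * Polynomial.X -
        Polynomial.C t)).coeff k * (s ^ (d - (k : ℕ)) * t ^ (k : ℕ)) =
        s ^ d * ((R * (Polynomial.C s * Polynomial.X - Polynomial.C t)).coeff k *
          (t / s) ^ (k : ℕ)) := by
      intro k
      have hk : (k : ℕ) ≤ d := Nat.lt_succ_iff.mp k.2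
      have h2 : s ^ (d - (k : ℕ)) * s ^ (k : ℕ) = s ^ d := by rw [← pow_add]; congr 1; omega
      rw [div_pow, ← h2]
      field_simp
    simp only [h1]
    rw [← Finset.mul_sum, SEC1_eval_fin _ _ hdeg, Polynomial.eval_mul, Polynomial.eval_sub,
      Polynomial.eval_mul, Polynomial.eval_C, Polynomial.eval_C, Polynomial.eval_X,
      mul_div_cancel₀ _ hs, sub_self, mul_zero, mul_zero]

/-- a functional vanishing on generators vanishes on the span -/
theorem BV_span (N : ℕ) (q : Fin N → K) (M : Matrix (Fin N) (Fin N) K) (S : Set (Fin N → K))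
    (hS : ∀ y ∈ S, ∑ k, q k * M.mulVec y k = 0) (y : Fin N → K)
    (hy : y ∈ Submodule.span K S) : ∑ k, q k * M.mulVec y k = 0 := by
  induction hy using Submodule.span_induction with
  | mem x hx => exact hS x hx
  | zero => simp
  | add x y _ _ hx hy =>
    simp only [Matrix.mulVec_add, Pi.add_apply, mul_add, Finset.sum_add_distrib, hx, hy,
      add_zero]
  | smul a x _ hx =>
    have : ∀ k, q k * M.mulVec (a • x) k = a * (q k * M.mulVec x k) := by
      intro k
      rw [Matrix.mulVec_smul, Pi.smul_apply, smul_eq_mul]; ring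
    simp only [this]
    rw [← Finset.mul_sum, hx, mul_zero]

/-- the functional attached to `P_I Q R` vanishes on the span of the `u i` and of the points of
the curve -/
theorem BV_vanish (d m k : ℕ) (u : Fin m → Fin (d + 1) → K) (t : Fin m → K)
    (M : Matrix (Fin (d + 1)) (Fin (d + 1)) K) (hM : M.det ≠ 0)
    (hu : ∀ i, ∃ c : K, c ≠ 0 ∧ M.mulVec (u i) = fun j : Fin (d + 1) => c * t i ^ (j : ℕ))
    (I : Finset (Fin m)) (s s' : Fin k → K) (r : ℕ) (hdeg : I.card + r + k ≤ d)
    (y : Fin (d + 1) → K)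
    (hy : y ∈ Submodule.span K (u '' I ∪ Set.range fun j => M⁻¹.mulVec (ver d (s j) (s' j)))) :
    ∑ l : Fin (d + 1), ((∏ i ∈ I, (Polynomial.X - Polynomial.C (t i))) * Polynomial.X ^ r *
      ∏ j, (Polynomial.C (s j) * Polynomial.X - Polynomial.C (s' j))).coeff l * M.mulVec y l
      = 0 := by
  classical
  have hPd : (∏ i ∈ I, (Polynomial.X - Polynomial.C (t i))).natDegree = I.card := by
    rw [Polynomial.natDegree_prod_of_monic _ _ fun i _ => Polynomial.monic_X_sub_C _]
    simp
  have hfac : ∀ j, (Polynomial.C (s j) * Polynomial.X - Polynomial.C (s' j)).natDegree ≤ 1 := by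
    intro j
    refine (Polynomial.natDegree_sub_le _ _).trans ?_
    rw [Polynomial.natDegree_C]
    exact max_le ((Polynomial.natDegree_C_mul_le _ _).trans Polynomial.natDegree_X_le) (Nat.zero_le _)
  have hQd : ∀ T : Finset (Fin k), (∏ j ∈ T, (Polynomial.C (s j) * Polynomial.X -
      Polynomial.C (s' j))).natDegree ≤ T.card := by
    intro T
    refine (Polynomial.natDegree_prod_le _ _).trans ?_
    refine (Finset.sum_le_card_nsmul _ _ 1 fun j _ => hfac j).trans ?_
    simp
  refine BV_span (d + 1) _ M _ ?_ y hy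
  rintro x (⟨i, hi, rfl⟩ | ⟨j, rfl⟩)
  · obtain ⟨c, hc, hcu⟩ := hu i
    rw [hcu]
    have : ∀ l : Fin (d + 1), ((∏ i ∈ I, (Polynomial.X - Polynomial.C (t i))) *
        Polynomial.X ^ r * ∏ j, (Polynomial.C (s j) * Polynomial.X -
          Polynomial.C (s' j))).coeff l * (c * t i ^ (l : ℕ)) =
        c * (((∏ i ∈ I, (Polynomial.X - Polynomial.C (t i))) *
        Polynomial.X ^ r * ∏ j, (Polynomial.C (s j) * Polynomial.X -
          Polynomial.C (s' j))).coeff l * t i ^ (l : ℕ)) := by
      intro l; ring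
    simp only [this]
    rw [← Finset.mul_sum, SEC1_eval_fin]
    · rw [Polynomial.eval_mul, Polynomial.eval_mul, Polynomial.eval_prod,
        Finset.prod_eq_zero (Finset.mem_coe.mp hi) (by simp)]
      ring
    · have h1 := hQd Finset.univ
      rw [Finset.card_univ, Fintype.card_fin] at h1
      have h2 := Polynomial.natDegree_mul_le
        (p := (∏ i ∈ I, (Polynomial.X - Polynomial.C (t i))) * Polynomial.X ^ r)
        (q := ∏ j, (Polynomial.C (s j) * Polynomial.X - Polynomial.C (s' j)))
      have h3 := SEC1_natDegree_mul (∏ i ∈ I, (Polynomial.X - Polynomial.C (t i))) r _ hPd.le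
      omega
  · rw [Matrix.mulVec_mulVec, Matrix.mul_nonsing_inv _ (isUnit_iff_ne_zero.mpr hM),
      Matrix.one_mulVec]
    have hk : 1 ≤ k := Nat.lt_of_le_of_lt (Nat.zero_le _) j.2
    have hsplit : (∏ i ∈ I, (Polynomial.X - Polynomial.C (t i))) * Polynomial.X ^ r *
        ∏ j, (Polynomial.C (s j) * Polynomial.X - Polynomial.C (s' j)) =
        ((∏ i ∈ I, (Polynomial.X - Polynomial.C (t i))) * Polynomial.X ^ r *
        ∏ j ∈ Finset.univ.erase j, (Polynomial.C (s j) * Polynomial.X - Polynomial.C (s' j))) *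
        (Polynomial.C (s j) * Polynomial.X - Polynomial.C (s' j)) := by
      rw [← Finset.prod_erase_mul Finset.univ _ (Finset.mem_univ j)]
      ring
    rw [hsplit]
    refine BV_hom d _ ?_ (s j) (s' j)
    have h1 := hQd (Finset.univ.erase j)
    rw [Finset.card_erase_of_mem (Finset.mem_univ j), Finset.card_univ, Fintype.card_fin] at h1
    have h2 := Polynomial.natDegree_mul_le
      (p := (∏ i ∈ I, (Polynomial.X - Polynomial.C (t i))) * Polynomial.X ^ r)
      (q := ∏ j ∈ Finset.univ.erase j, (Polynomial.C (s j) * Polynomial.X -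
        Polynomial.C (s' j)))
    have h3 := SEC1_natDegree_mul (∏ i ∈ I, (Polynomial.X - Polynomial.C (t i))) r _ hPd.le
    omega

theorem st_BV : ST_BV.{w} := by
  classical
  intro K _ n u v t MA MB hF α I hn h1 p ⟨s, s', hne, _, hpY, hpZ⟩
  set Q : Polynomial K := ∏ j, (Polynomial.C (s j) * Polynomial.X - Polynomial.C (s' j))
    with hQ
  have hfac : ∀ j, (Polynomial.C (s j) * Polynomial.X - Polynomial.C (s' j)).natDegree ≤ 1 := by
    intro j
    refine (Polynomial.natDegree_sub_le _ _).trans ?_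
    rw [Polynomial.natDegree_C]
    exact max_le ((Polynomial.natDegree_C_mul_le _ _).trans Polynomial.natDegree_X_le) (Nat.zero_le _)
  have hQd : Q.natDegree ≤ 2 * α := by
    refine (Polynomial.natDegree_prod_le _ _).trans ?_
    refine (Finset.sum_le_card_nsmul _ _ 1 fun j _ => hfac j).trans ?_
    simp
  have hQ0 : Q ≠ 0 := by
    rw [hQ]
    refine Finset.prod_ne_zero_iff.mpr fun j _ h => hne j ?_
    have h0 := congrArg (fun R => Polynomial.coeff R 0) h
    have h1 := congrArg (fun R => Polynomial.coeff R 1) h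
    simp at h0 h1
    exact ⟨h1, h0⟩
  have hpe : p = Sum.elim (fun j => p (Sum.inl j)) (fun j => p (Sum.inr j)) := by
    ext j; rcases j with j | j <;> rfl
  rw [RingHom.map_det]
  refine Matrix.exists_mulVec_eq_zero_iff.mp
    ⟨fun c => Q.coeff (cix α (α + 1) c), ?_, ?_⟩
  · intro h0
    apply hQ0
    ext k
    rw [Polynomial.coeff_zero]
    by_cases hk : k < α
    · exact congrFun h0 (Sum.inl ⟨k, hk⟩)
    · by_cases hk2 : k < 2 * α + 1
      · have := congrFun h0 (Sum.inr ⟨k - α, by omega⟩)
        simp only [cix, Sum.elim_inr, Pi.zero_apply] at this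
        rwa [show α + (k - α) = k by omega] at this
      · exact Polynomial.coeff_eq_zero_of_natDegree_lt (by omega)
  · ext r
    rw [Pi.zero_apply, Matrix.mulVec, dotProduct]
    simp only [RingHom.mapMatrix_apply, Matrix.map_apply]
    rcases r with r | r
    · have hr := r.2
      show ∑ c, eval p (linY MA (rootP t I * Polynomial.X ^ ((r : ℕ) + cix α (α + 1) c))) *
        Q.coeff (cix α (α + 1) c) = 0
      rw [hpe]
      simp only [SEC1_linY_eval]
      rw [BV_row (n + 1) _ (rootP t I) Q r α (α + 1) (by omega)]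
      exact BV_vanish n (n + 3) (2 * α) u t MA hF.dA hF.hA I s s' r (by omega) _ hpY
    · have hr := r.2
      show ∑ c, eval p (linZ MB (rootP t I * 1 *
        Polynomial.X ^ ((r : ℕ) + cix α (α + 1) c))) * Q.coeff (cix α (α + 1) c) = 0
      rw [hpe]
      simp only [SEC1_linZ_eval, mul_one]
      rw [BV_row (n + 2) _ (rootP t I) Q r α (α + 1) (by omega)]
      exact BV_vanish (n + 1) (n + 3) (2 * α) v t MB hF.dB hF.hB I s s' r (by omega) _ hpZ

end Pool.Agent.Helper30.EC
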