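import Pool.Agent.Helper75.EC.Stmts

open MvPolynomial Pool.Agent.Helper75.EC

universe w

namespace Pool.Agent.Helper30.EC

/-! ### Bihomogeneity -/

/-- the bidegree weight -/
def SEC1_w (ι κ : Type*) : ι ⊕ κ → ℕ × ℕ := Sum.elim (fun _ => (1, 0)) (fun _ => (0, 1))

theorem SEC1_weight {ι κ : Type*} [Fintype ι] [Fintype κ] (d : (ι ⊕ κ) →₀ ℕ) :
    Finsupp.weight (SEC1_w ι κ) d = (∑ j, d (Sum.inl j), ∑ j, d (Sum.inr j)) := by
  rw [Finsupp.weight_apply, Finsupp.sum_fintype]
  · rw [Fintype.sum_sum_type]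
    simp only [SEC1_w, Sum.elim_inl, Sum.elim_inr]
    ext
    · simp [Prod.fst_sum]
    · simp [Prod.snd_sum]
  · intro i; simp

theorem SEC1_bihom_iff {K : Type*} [Field K] {ι κ : Type*} [Fintype ι] [Fintype κ]
    (F : MvPolynomial (ι ⊕ κ) K) (a b : ℕ) :
    IsBihom F a b ↔ IsWeightedHomogeneous (SEC1_w ι κ) F (a, b) := by
  unfold IsBihom IsWeightedHomogeneous
  constructor
  · intro h d hd
    rw [SEC1_weight]
    have := h d (mem_support_iff.mpr hd)
    rw [this.1, this.2]
  · intro h d hd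
    have := h (mem_support_iff.mp hd)
    rw [SEC1_weight] at this
    exact ⟨congrArg Prod.fst this, congrArg Prod.snd this⟩

/-- the determinant of a matrix with homogeneous rows -/
theorem SEC1_det_wh {K : Type*} [Field K] {σ κ : Type*} [Fintype κ] [DecidableEq κ]
    (wt : σ → ℕ × ℕ) (M : Matrix κ κ (MvPolynomial σ K)) (e : κ → ℕ × ℕ)
    (h : ∀ i j, IsWeightedHomogeneous wt (M i j) (e i)) :
    IsWeightedHomogeneous wt M.det (∑ i, e i) := by
  rw [Matrix.det_apply]
  refine IsWeightedHomogeneous.sum _ _ _ fun τ _ => ?_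
  have h1 : IsWeightedHomogeneous wt (∏ i, M (τ i) i) (∑ i, e (τ i)) :=
    IsWeightedHomogeneous.prod _ _ _ fun i _ => h (τ i) i
  rw [Equiv.sum_comp τ e] at h1
  rcases Int.units_eq_one_or (Equiv.Perm.sign τ) with hs | hs
  · rw [hs, one_smul]; exact h1
  · rw [hs, Units.neg_smul, one_smul]; exact h1.neg

/-! ### Determinants of rank one perturbations -/

theorem SEC1_det_mem {R : Type*} [CommRing R] (J : Ideal R) {κ : Type*} [Fintype κ]
    [DecidableEq κ] (N : Matrix κ κ R) (hN : ∀ i j, N i j ∈ J) :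
    N.det ∈ J ^ (Fintype.card κ) := by
  rw [Matrix.det_apply]
  refine Ideal.sum_mem _ fun τ _ => ?_
  have h1 : (∏ i, N (τ i) i) ∈ J ^ (Fintype.card κ) := by
    have := Ideal.prod_mem_prod (s := (Finset.univ : Finset κ)) (I := fun _ => J)
      (x := fun i => N (τ i) i) (fun i _ => hN _ _)
    simpa [Finset.prod_const, Finset.card_univ] using this
  rcases Int.units_eq_one_or (Equiv.Perm.sign τ) with hs | hs
  · rw [hs, one_smul]; exact h1
  · rw [hs, Units.neg_smul, one_smul]; exact neg_mem h1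

theorem SEC1_det_rank1 {R : Type*} [CommRing R] (J : Ideal R) {κ : Type*} [Fintype κ]
    [DecidableEq κ] (N : Matrix κ κ R) (hN : ∀ i j, N i j ∈ J) (a b : κ → R) :
    (N + Matrix.vecMulVec a b).det ∈ J ^ (Fintype.card κ - 1) := by
  have key : (N + Matrix.vecMulVec a b).det =
      (Matrix.fromBlocks (1 : Matrix Unit Unit R) (Matrix.of fun _ j => - b j)
        (Matrix.of fun i _ => a i) N).det := by
    rw [Matrix.det_fromBlocks_one₁₁]
    congr 1
    ext i j
    simp [Matrix.mul_apply, Matrix.vecMulVec_apply]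
  rw [key, Matrix.det_apply]
  set M := Matrix.fromBlocks (1 : Matrix Unit Unit R) (Matrix.of fun _ j => - b j)
    (Matrix.of fun i _ => a i) N with hM
  have hMN : ∀ i j, M (Sum.inr i) (Sum.inr j) ∈ J := fun i j => by
    rw [hM, Matrix.fromBlocks_apply₂₂]; exact hN i j
  refine Ideal.sum_mem _ fun τ _ => ?_
  have h1 : (∏ i, M (τ i) i) ∈ J ^ (Fintype.card κ - 1) := by
    rw [Fintype.prod_sum_type]
    refine Ideal.mul_mem_left _ _ ?_
    by_cases hc : ∃ c : κ, τ (Sum.inr c) = Sum.inl ()
    · obtain ⟨c, hc⟩ := hc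
      rw [← Finset.mul_prod_erase Finset.univ _ (Finset.mem_univ c)]
      refine Ideal.mul_mem_left _ _ ?_
      have := Ideal.prod_mem_prod (s := (Finset.univ : Finset κ).erase c) (I := fun _ => J)
        (x := fun i => M (τ (Sum.inr i)) (Sum.inr i)) (fun i hi => by
          have hne : τ (Sum.inr i) ≠ Sum.inl () := by
            intro h
            have : (Sum.inr i : Unit ⊕ κ) = Sum.inr c := τ.injective (h.trans hc.symm)
            exact (Finset.ne_of_mem_erase hi) (Sum.inr_injective this)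
          rcases hh : τ (Sum.inr i) with u | k
          · exact absurd hh hne
          · exact hMN _ _)
      simpa [Finset.prod_const, Finset.card_erase_of_mem, Finset.card_univ] using this
    · push Not at hc
      have := Ideal.prod_mem_prod (s := (Finset.univ : Finset κ)) (I := fun _ => J)
        (x := fun i => M (τ (Sum.inr i)) (Sum.inr i)) (fun i _ => by
          rcases hh : τ (Sum.inr i) with u | k
          · exact absurd hh (hc i)
          · exact hMN _ _)
      rw [Finset.prod_const, Finset.card_univ] at this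
      exact Ideal.pow_le_pow_right (Nat.sub_le _ _) this
  rcases Int.units_eq_one_or (Equiv.Perm.sign τ) with hs | hs
  · rw [hs, one_smul]; exact h1
  · rw [hs, Units.neg_smul, one_smul]; exact neg_mem h1

theorem SEC1_ordGe_iff {K : Type*} [Field K] {σ : Type*} (F : MvPolynomial σ K) (p : σ → K)
    (m : ℕ) : OrdGe F p m ↔
      aeval (fun j => (X j + C (p j) : MvPolynomial σ K)) F ∈ idealOfVars σ K ^ m := by
  unfold OrdGe
  rw [mem_pow_idealOfVars_iff]

/-! ### The entries -/

section

variable {K : Type*} [Field K] {n : ℕ}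

theorem SEC1_linY_shift (MA : Matrix (Fin (n + 1)) (Fin (n + 1)) K) (P : Polynomial K)
    (p : Fin (n + 1) ⊕ Fin (n + 2) → K) :
    aeval (fun j => (X j + C (p j) : MvPolynomial (Fin (n + 1) ⊕ Fin (n + 2)) K)) (linY MA P)
      = linY MA P + C (eval p (linY MA P)) := by
  unfold linY
  simp only [map_sum, map_mul, aeval_X, algHom_C, eval_C, eval_X, algebraMap_eq]
  rw [← Finset.sum_add_distrib]
  refine Finset.sum_congr rfl fun k _ => ?_
  rw [← mul_add, ← Finset.sum_add_distrib]
  congr 1
  refine Finset.sum_congr rfl fun j _ => ?_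
  ring

theorem SEC1_linZ_shift (MB : Matrix (Fin (n + 2)) (Fin (n + 2)) K) (P : Polynomial K)
    (p : Fin (n + 1) ⊕ Fin (n + 2) → K) :
    aeval (fun j => (X j + C (p j) : MvPolynomial (Fin (n + 1) ⊕ Fin (n + 2)) K)) (linZ MB P)
      = linZ MB P + C (eval p (linZ MB P)) := by
  unfold linZ
  simp only [map_sum, map_mul, aeval_X, algHom_C, eval_C, eval_X, algebraMap_eq]
  rw [← Finset.sum_add_distrib]
  refine Finset.sum_congr rfl fun k _ => ?_
  rw [← mul_add, ← Finset.sum_add_distrib]
  congr 1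
  refine Finset.sum_congr rfl fun j _ => ?_
  ring

theorem SEC1_linY_wh (MA : Matrix (Fin (n + 1)) (Fin (n + 1)) K) (P : Polynomial K) :
    IsWeightedHomogeneous (SEC1_w (Fin (n + 1)) (Fin (n + 2))) (linY MA P) (1, 0) := by
  unfold linY
  refine IsWeightedHomogeneous.sum _ _ _ fun k _ => IsWeightedHomogeneous.C_mul ?_ _
  refine IsWeightedHomogeneous.sum _ _ _ fun j _ => IsWeightedHomogeneous.C_mul ?_ _
  exact isWeightedHomogeneous_X K (SEC1_w (Fin (n + 1)) (Fin (n + 2))) (Sum.inl j)

theorem SEC1_linZ_wh (MB : Matrix (Fin (n + 2)) (Fin (n + 2)) K) (P : Polynomial K) :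
    IsWeightedHomogeneous (SEC1_w (Fin (n + 1)) (Fin (n + 2))) (linZ MB P) (0, 1) := by
  unfold linZ
  refine IsWeightedHomogeneous.sum _ _ _ fun k _ => IsWeightedHomogeneous.C_mul ?_ _
  refine IsWeightedHomogeneous.sum _ _ _ fun j _ => IsWeightedHomogeneous.C_mul ?_ _
  exact isWeightedHomogeneous_X K (SEC1_w (Fin (n + 1)) (Fin (n + 2))) (Sum.inr j)

theorem SEC1_linY_mem (MA : Matrix (Fin (n + 1)) (Fin (n + 1)) K) (P : Polynomial K) :
    linY MA P ∈ idealOfVars (Fin (n + 1) ⊕ Fin (n + 2)) K := by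
  unfold linY
  refine Ideal.sum_mem _ fun k _ => Ideal.mul_mem_left _ _ ?_
  refine Ideal.sum_mem _ fun j _ => Ideal.mul_mem_left _ _ ?_
  exact Ideal.subset_span ⟨_, rfl⟩

theorem SEC1_linZ_mem (MB : Matrix (Fin (n + 2)) (Fin (n + 2)) K) (P : Polynomial K) :
    linZ MB P ∈ idealOfVars (Fin (n + 1) ⊕ Fin (n + 2)) K := by
  unfold linZ
  refine Ideal.sum_mem _ fun k _ => Ideal.mul_mem_left _ _ ?_
  refine Ideal.sum_mem _ fun j _ => Ideal.mul_mem_left _ _ ?_
  exact Ideal.subset_span ⟨_, rfl⟩

theorem SEC1_linY_eval (MA : Matrix (Fin (n + 1)) (Fin (n + 1)) K) (P : Polynomial K)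
    (y : Fin (n + 1) → K) (z : Fin (n + 2) → K) :
    eval (Sum.elim y z) (linY MA P) = ∑ k : Fin (n + 1), P.coeff k * MA.mulVec y k := by
  unfold linY
  simp only [map_sum, map_mul, eval_C, eval_X, Sum.elim_inl]
  rfl

theorem SEC1_linZ_eval (MB : Matrix (Fin (n + 2)) (Fin (n + 2)) K) (P : Polynomial K)
    (y : Fin (n + 1) → K) (z : Fin (n + 2) → K) :
    eval (Sum.elim y z) (linZ MB P) = ∑ k : Fin (n + 2), P.coeff k * MB.mulVec z k := by
  unfold linZ
  simp only [map_sum, map_mul, eval_C, eval_X, Sum.elim_inr]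
  rfl

/-- evaluation as a sum over `Fin` -/
theorem SEC1_eval_fin (P : Polynomial K) (N : ℕ) (hP : P.natDegree < N) (s : K) :
    ∑ k : Fin N, P.coeff k * s ^ (k : ℕ) = P.eval s := by
  rw [Polynomial.eval_eq_sum_range' hP, Finset.sum_range]

end


/-! ### The order of vanishing at the points -/

section

variable {K : Type*} [Field K] {n : ℕ}

theorem SEC1_natDegree_rootP (t : Fin (n + 3) → K) (I : Finset (Fin (n + 3))) :
    (rootP t I).natDegree = I.card := by
  unfold rootP
  rw [Polynomial.natDegree_prod_of_monic _ _ fun i _ => Polynomial.monic_X_sub_C _]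
  simp

theorem SEC1_natDegree_mul (P : Polynomial K) (e d : ℕ) (hP : P.natDegree ≤ d) :
    (P * Polynomial.X ^ e).natDegree ≤ d + e := by
  refine Polynomial.natDegree_mul_le.trans ?_
  rw [Polynomial.natDegree_X_pow]
  omega

/-- the constant part of the matrix at the point `i` -/
theorem SEC1_order {u : Fin (n + 3) → Fin (n + 1) → K} {v : Fin (n + 3) → Fin (n + 2) → K}
    {t : Fin (n + 3) → K} {MA : Matrix (Fin (n + 1)) (Fin (n + 1)) K}
    {MB : Matrix (Fin (n + 2)) (Fin (n + 2)) K} (hF : Frame u v t MA MB)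
    (α β : ℕ) (I : Finset (Fin (n + 3))) (hn : 2 * α + β + I.card = n + 2) (hβ : β ≤ α + 1)
    (h1 : 1 ≤ α + β) (g : Polynomial K) (hg : g.natDegree ≤ α + 1 - β) (i : Fin (n + 3)) :
    OrdGe (secM MA MB (rootP t I) g α β).det (Sum.elim (u i) (v i))
      (α + β - 1 + if i ∈ I then 1 else 0) := by
  classical
  set J := idealOfVars (Fin (n + 1) ⊕ Fin (n + 2)) K with hJ
  obtain ⟨c, hc, hcA⟩ := hF.hA i
  obtain ⟨c', hc', hcB⟩ := hF.hB i
  set P := rootP t I with hP
  have hPd : P.natDegree = I.card := SEC1_natDegree_rootP t I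
  set φ := aeval (R := K)
    (fun j => (X j + C (Sum.elim (u i) (v i) j) : MvPolynomial (Fin (n + 1) ⊕ Fin (n + 2)) K))
    with hφ
  set N := secM MA MB P g α β with hN
  have hNJ : ∀ r s, N r s ∈ J := by
    intro r s
    rcases r with r | r
    · exact SEC1_linY_mem _ _
    · exact SEC1_linZ_mem _ _
  -- the constant parts
  let a : Fin α ⊕ Fin β → MvPolynomial (Fin (n + 1) ⊕ Fin (n + 2)) K :=
    Sum.elim (fun r => C (c * P.eval (t i) * t i ^ (r : ℕ)))
      (fun r => C (c' * (P * g).eval (t i) * t i ^ (r : ℕ)))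
  let b : Fin α ⊕ Fin β → MvPolynomial (Fin (n + 1) ⊕ Fin (n + 2)) K :=
    fun s => C (t i ^ cix α β s)
  have hcix : ∀ s : Fin α ⊕ Fin β, cix α β s < α + β := by
    intro s
    rcases s with s | s
    · have := s.2; simp only [cix, Sum.elim_inl]; omega
    · have := s.2; simp only [cix, Sum.elim_inr]; omega
  have hmap : (φ.mapMatrix N : Matrix _ _ _) = N + Matrix.vecMulVec a b := by
    ext1 r s
    rw [AlgHom.mapMatrix_apply, Matrix.map_apply, Matrix.add_apply, Matrix.vecMulVec_apply]
    have hs := hcix s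
    rcases r with r | r
    · have hr := r.2
      show φ (linY MA (P * Polynomial.X ^ ((r : ℕ) + cix α β s))) = _
      rw [hφ, SEC1_linY_shift, SEC1_linY_eval, hcA]
      show _ = linY MA (P * Polynomial.X ^ ((r : ℕ) + cix α β s)) + _
      congr 1
      simp only [a, b, Sum.elim_inl]
      rw [← C_mul]
      congr 1
      have : ∀ k : Fin (n + 1), (P * Polynomial.X ^ ((r : ℕ) + cix α β s)).coeff k *
          (c * t i ^ (k : ℕ)) =
          c * ((P * Polynomial.X ^ ((r : ℕ) + cix α β s)).coeff k * t i ^ (k : ℕ)) := by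
        intro k; ring
      simp only [this]
      rw [← Finset.mul_sum, SEC1_eval_fin]
      · simp only [Polynomial.eval_mul, Polynomial.eval_pow, Polynomial.eval_X, pow_add]
        ring
      · have := SEC1_natDegree_mul P ((r : ℕ) + cix α β s) _ hPd.le
        omega
    · have hr := r.2
      show φ (linZ MB (P * g * Polynomial.X ^ ((r : ℕ) + cix α β s))) = _
      rw [hφ, SEC1_linZ_shift, SEC1_linZ_eval, hcB]
      show _ = linZ MB (P * g * Polynomial.X ^ ((r : ℕ) + cix α β s)) + _
      congr 1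
      simp only [a, b, Sum.elim_inr]
      rw [← C_mul]
      congr 1
      have : ∀ k : Fin (n + 2), (P * g * Polynomial.X ^ ((r : ℕ) + cix α β s)).coeff k *
          (c' * t i ^ (k : ℕ)) =
          c' * ((P * g * Polynomial.X ^ ((r : ℕ) + cix α β s)).coeff k * t i ^ (k : ℕ)) := by
        intro k; ring
      simp only [this]
      rw [← Finset.mul_sum, SEC1_eval_fin]
      · simp only [Polynomial.eval_mul, Polynomial.eval_pow, Polynomial.eval_X, pow_add]
        ring
      · have hpg : (P * g).natDegree ≤ I.card + (α + 1 - β) :=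
          Polynomial.natDegree_mul_le.trans (by omega)
        have := SEC1_natDegree_mul (P * g) ((r : ℕ) + cix α β s) _ hpg
        omega
  rw [SEC1_ordGe_iff]
  change φ N.det ∈ J ^ _
  rw [AlgHom.map_det, hmap]
  by_cases hi : i ∈ I
  · have hz : P.eval (t i) = 0 := by
      rw [hP, rootP, Polynomial.eval_prod]
      exact Finset.prod_eq_zero hi (by simp)
    have ha : Matrix.vecMulVec a b = 0 := by
      ext1 r s
      rw [Matrix.vecMulVec_apply, Matrix.zero_apply]
      rcases r with r | r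
      · simp only [a, Sum.elim_inl, hz, mul_zero, zero_mul, map_zero]
      · simp only [a, Sum.elim_inr, Polynomial.eval_mul, hz, mul_zero, zero_mul, map_zero]
    rw [ha, add_zero, if_pos hi]
    have := SEC1_det_mem J N hNJ
    rw [Fintype.card_sum, Fintype.card_fin, Fintype.card_fin] at this
    rwa [show α + β - 1 + 1 = α + β by omega]
  · rw [if_neg hi, add_zero]
    have := SEC1_det_rank1 J N hNJ a b
    rwa [Fintype.card_sum, Fintype.card_fin, Fintype.card_fin] at this

/-! ### Non-vanishing -/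

theorem SEC1_exists_points [Infinite K] (κ : Type) [Finite κ] (Q : Polynomial K) (hQ : Q ≠ 0) :
    ∃ s : κ → K, Function.Injective s ∧ ∀ j, Q.eval (s j) ≠ 0 := by
  classical
  have hinf : ({x : K | Q.eval x ≠ 0} : Set K).Infinite := by
    have hfin : ({x : K | Q.eval x = 0} : Set K).Finite := by
      have := Q.roots.toFinset.finite_toSet
      refine this.subset fun x hx => ?_
      simp only [Finset.mem_coe, Multiset.mem_toFinset]
      exact (Polynomial.mem_roots hQ).mpr hx
    have := hfin.infinite_compl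
    exact this.mono fun x hx => hx
  have := hinf.to_subtype
  have := Fintype.ofFinite κ
  obtain ⟨e⟩ : Nonempty (κ ↪ {x : K | Q.eval x ≠ 0}) :=
    ⟨(Function.Embedding.trans (Fintype.equivFin κ).toEmbedding
      (Function.Embedding.trans Fin.valEmbedding (Infinite.natEmbedding _)))⟩
  exact ⟨fun j => (e j : K), fun x y h => e.injective (Subtype.ext h), fun j => (e j).2⟩

theorem SEC1_vand_ne (α β : ℕ) (s : Fin α ⊕ Fin β → K) (hs : Function.Injective s) :
    (Matrix.of fun j c : Fin α ⊕ Fin β => s j ^ cix α β c).det ≠ 0 := by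
  have h1 : (Matrix.of fun j c : Fin α ⊕ Fin β => s j ^ cix α β c) =
      (Matrix.vandermonde (s ∘ finSumFinEquiv.symm)).submatrix finSumFinEquiv finSumFinEquiv := by
    ext j c
    rw [Matrix.submatrix_apply, Matrix.vandermonde_apply, Matrix.of_apply]
    simp only [Function.comp, Equiv.symm_apply_apply]
    congr 1
    rcases c with c | c
    · simp [cix]
    · simp [cix]
  rw [h1, Matrix.det_submatrix_equiv_self, Matrix.det_vandermonde_ne_zero_iff]
  exact hs.comp finSumFinEquiv.symm.injective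

theorem SEC1_ne [Infinite K] {u : Fin (n + 3) → Fin (n + 1) → K}
    {v : Fin (n + 3) → Fin (n + 2) → K}
    {t : Fin (n + 3) → K} {MA : Matrix (Fin (n + 1)) (Fin (n + 1)) K}
    {MB : Matrix (Fin (n + 2)) (Fin (n + 2)) K} (hF : Frame u v t MA MB)
    (α β : ℕ) (I : Finset (Fin (n + 3))) (hn : 2 * α + β + I.card = n + 2) (hβ : β ≤ α + 1)
    (h1 : 1 ≤ α + β) (g : Polynomial K) (hg0 : g ≠ 0) (hg : g.natDegree ≤ α + 1 - β) :
    (secM MA MB (rootP t I) g α β).det ≠ 0 := by
  classical
  set P := rootP t I with hP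
  have hPd : P.natDegree = I.card := SEC1_natDegree_rootP t I
  have hP0 : P ≠ 0 := by
    rw [hP, rootP]
    exact Finset.prod_ne_zero_iff.mpr fun i _ => Polynomial.X_sub_C_ne_zero _
  obtain ⟨s, hs, hsQ⟩ := SEC1_exists_points (K := K) (Fin α ⊕ Fin β) (P * g)
    (mul_ne_zero hP0 hg0)
  have hsP : ∀ j, P.eval (s j) ≠ 0 := fun j h => hsQ j (by rw [Polynomial.eval_mul, h, zero_mul])
  have hcix : ∀ s : Fin α ⊕ Fin β, cix α β s < α + β := by
    intro s
    rcases s with s | s
    · have := s.2; simp only [cix, Sum.elim_inl]; omega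
    · have := s.2; simp only [cix, Sum.elim_inr]; omega
  let y : Fin (n + 1) → K := MA⁻¹.mulVec (fun k : Fin (n + 1) => ∑ j : Fin α,
    (P.eval (s (Sum.inl j)))⁻¹ * s (Sum.inl j) ^ (k : ℕ))
  let z : Fin (n + 2) → K := MB⁻¹.mulVec (fun k : Fin (n + 2) => ∑ j : Fin β,
    ((P * g).eval (s (Sum.inr j)))⁻¹ * s (Sum.inr j) ^ (k : ℕ))
  have hy : MA.mulVec y = (fun k : Fin (n + 1) => ∑ j : Fin α,
      (P.eval (s (Sum.inl j)))⁻¹ * s (Sum.inl j) ^ (k : ℕ)) := by
    simp only [y]
    rw [Matrix.mulVec_mulVec, Matrix.mul_nonsing_inv _ (isUnit_iff_ne_zero.mpr hF.dA),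
      Matrix.one_mulVec]
  have hz : MB.mulVec z = (fun k : Fin (n + 2) => ∑ j : Fin β,
      ((P * g).eval (s (Sum.inr j)))⁻¹ * s (Sum.inr j) ^ (k : ℕ)) := by
    simp only [z]
    rw [Matrix.mulVec_mulVec, Matrix.mul_nonsing_inv _ (isUnit_iff_ne_zero.mpr hF.dB),
      Matrix.one_mulVec]
  intro hdet
  have hev : (eval (Sum.elim y z)) (secM MA MB P g α β).det = 0 := by rw [hdet, map_zero]
  rw [RingHom.map_det] at hev
  have hprod : (eval (Sum.elim y z)).mapMatrix (secM MA MB P g α β) =
      Matrix.fromBlocks (Matrix.vandermonde fun j => s (Sum.inl j)).transpose 0 0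
        (Matrix.vandermonde fun j => s (Sum.inr j)).transpose *
      (Matrix.of fun j c : Fin α ⊕ Fin β => s j ^ cix α β c) := by
    ext r c
    rw [RingHom.mapMatrix_apply, Matrix.map_apply, Matrix.mul_apply, Fintype.sum_sum_type]
    have hc := hcix c
    rcases r with r | r
    · have hr := r.2
      simp only [Matrix.fromBlocks_apply₁₁, Matrix.fromBlocks_apply₁₂, Matrix.zero_apply,
        zero_mul, Finset.sum_const_zero, add_zero, Matrix.transpose_apply,
        Matrix.vandermonde_apply, Matrix.of_apply]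
      show eval (Sum.elim y z) (linY MA (P * Polynomial.X ^ ((r : ℕ) + cix α β c))) = _
      rw [SEC1_linY_eval, hy]
      have hdeg := SEC1_natDegree_mul P ((r : ℕ) + cix α β c) _ hPd.le
      simp only [Finset.mul_sum]
      rw [Finset.sum_comm]
      refine Finset.sum_congr rfl fun j _ => ?_
      have : ∀ k : Fin (n + 1), (P * Polynomial.X ^ ((r : ℕ) + cix α β c)).coeff k *
          ((P.eval (s (Sum.inl j)))⁻¹ * s (Sum.inl j) ^ (k : ℕ)) =
          (P.eval (s (Sum.inl j)))⁻¹ * ((P * Polynomial.X ^ ((r : ℕ) + cix α β c)).coeff k *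
            s (Sum.inl j) ^ (k : ℕ)) := by
        intro k; ring
      simp only [this]
      rw [← Finset.mul_sum, SEC1_eval_fin _ _ (by omega)]
      simp only [Polynomial.eval_mul, Polynomial.eval_pow, Polynomial.eval_X, pow_add]
      field_simp [hsP (Sum.inl j)]
    · have hr := r.2
      simp only [Matrix.fromBlocks_apply₂₁, Matrix.fromBlocks_apply₂₂, Matrix.zero_apply,
        zero_mul, Finset.sum_const_zero, zero_add, Matrix.transpose_apply,
        Matrix.vandermonde_apply, Matrix.of_apply]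
      show eval (Sum.elim y z) (linZ MB (P * g * Polynomial.X ^ ((r : ℕ) + cix α β c))) = _
      rw [SEC1_linZ_eval, hz]
      have hpg : (P * g).natDegree ≤ I.card + (α + 1 - β) :=
        Polynomial.natDegree_mul_le.trans (by omega)
      have hdeg := SEC1_natDegree_mul (P * g) ((r : ℕ) + cix α β c) _ hpg
      simp only [Finset.mul_sum]
      rw [Finset.sum_comm]
      refine Finset.sum_congr rfl fun j _ => ?_
      have : ∀ k : Fin (n + 2), (P * g * Polynomial.X ^ ((r : ℕ) + cix α β c)).coeff k *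
          (((P * g).eval (s (Sum.inr j)))⁻¹ * s (Sum.inr j) ^ (k : ℕ)) =
          ((P * g).eval (s (Sum.inr j)))⁻¹ *
            ((P * g * Polynomial.X ^ ((r : ℕ) + cix α β c)).coeff k *
            s (Sum.inr j) ^ (k : ℕ)) := by
        intro k; ring
      simp only [this]
      rw [← Finset.mul_sum, SEC1_eval_fin _ _ (by omega), Polynomial.eval_mul (p := P * g),
        Polynomial.eval_pow, Polynomial.eval_X, pow_add, ← mul_assoc,
        inv_mul_cancel₀ (hsQ (Sum.inr j)), one_mul]
  rw [hprod, Matrix.det_mul, Matrix.det_fromBlocks_zero₂₁, Matrix.det_transpose,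
    Matrix.det_transpose] at hev
  refine mul_ne_zero (mul_ne_zero ?_ ?_) (SEC1_vand_ne α β s hs) hev
  · rw [Matrix.det_vandermonde_ne_zero_iff]
    exact fun x y h => Sum.inl_injective (hs h)
  · rw [Matrix.det_vandermonde_ne_zero_iff]
    exact fun x y h => Sum.inr_injective (hs h)

end

theorem st_SEC1 : ST_SEC1.{w} := by
  intro K _ _ n u v t MA MB hF α β I hn hβ h1 g hg0 hg
  refine ⟨SEC1_ne hF α β I hn hβ h1 g hg0 hg, ?_, SEC1_order hF α β I hn hβ h1 g hg⟩
  rw [SEC1_bihom_iff]
  have h := SEC1_det_wh (SEC1_w (Fin (n + 1)) (Fin (n + 2)))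
    (secM MA MB (rootP t I) g α β) (Sum.elim (fun _ => (1, 0)) (fun _ => (0, 1)))
    (by
      intro r c
      rcases r with r | r
      · exact SEC1_linY_wh _ _
      · exact SEC1_linZ_wh _ _)
  have hsum : ∑ i : Fin α ⊕ Fin β, (Sum.elim (fun _ => (1, 0)) (fun _ => (0, 1)) i : ℕ × ℕ)
      = (α, β) := by
    rw [Fintype.sum_sum_type]
    simp only [Sum.elim_inl, Sum.elim_inr, Finset.sum_const, Finset.card_univ,
      Fintype.card_fin]
    simp
  rwa [hsum] at h

end Pool.Agent.Helper30.EC
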