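import Pool.Agent.Helper30.EC.SEC1

open MvPolynomial Pool.Agent.Helper75.EC

universe w

namespace Pool.Agent.Helper30.EC

variable {K : Type*} [Field K] {n : ℕ}

/-- the value of the determinant at a sum of evaluations -/
theorem SEC2_eval {MA : Matrix (Fin (n + 1)) (Fin (n + 1)) K}
    {MB : Matrix (Fin (n + 2)) (Fin (n + 2)) K}
    (α β e : ℕ) (hn : 2 * α + β + e = n + 2) (hβ : β ≤ α + 1)
    (P g : Polynomial K) (hPd : P.natDegree ≤ e) (hg : g.natDegree ≤ α + 1 - β)
    (s w : Fin α ⊕ Fin β → K) (y : Fin (n + 1) → K) (z : Fin (n + 2) → K)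
    (hy : MA.mulVec y = (fun k : Fin (n + 1) => ∑ j : Fin α,
      w (Sum.inl j) * s (Sum.inl j) ^ (k : ℕ)))
    (hz : MB.mulVec z = (fun k : Fin (n + 2) => ∑ j : Fin β,
      w (Sum.inr j) * s (Sum.inr j) ^ (k : ℕ))) :
    eval (Sum.elim y z) (secM MA MB P g α β).det =
      ((Matrix.vandermonde fun j => s (Sum.inl j)).det *
        ∏ j : Fin α, (w (Sum.inl j) * P.eval (s (Sum.inl j)))) *
      ((Matrix.vandermonde fun j => s (Sum.inr j)).det *
        ∏ j : Fin β, (w (Sum.inr j) * (P * g).eval (s (Sum.inr j)))) *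
      (Matrix.of fun j c : Fin α ⊕ Fin β => s j ^ cix α β c).det := by
  classical
  have hcix : ∀ s : Fin α ⊕ Fin β, cix α β s < α + β := by
    intro s
    rcases s with s | s
    · have := s.2; simp only [cix, Sum.elim_inl]; omega
    · have := s.2; simp only [cix, Sum.elim_inr]; omega
  rw [RingHom.map_det]
  have hprod : (eval (Sum.elim y z)).mapMatrix (secM MA MB P g α β) =
      Matrix.fromBlocks ((Matrix.vandermonde fun j => s (Sum.inl j)).transpose *
        Matrix.diagonal fun j => w (Sum.inl j) * P.eval (s (Sum.inl j))) 0 0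
        ((Matrix.vandermonde fun j => s (Sum.inr j)).transpose *
        Matrix.diagonal fun j => w (Sum.inr j) * (P * g).eval (s (Sum.inr j))) *
      (Matrix.of fun j c : Fin α ⊕ Fin β => s j ^ cix α β c) := by
    ext r c
    rw [RingHom.mapMatrix_apply, Matrix.map_apply, Matrix.mul_apply, Fintype.sum_sum_type]
    have hc := hcix c
    rcases r with r | r
    · have hr := r.2
      simp only [Matrix.fromBlocks_apply₁₁, Matrix.fromBlocks_apply₁₂, Matrix.zero_apply,
        zero_mul, Finset.sum_const_zero, add_zero, Matrix.mul_diagonal, Matrix.transpose_apply,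
        Matrix.vandermonde_apply, Matrix.of_apply]
      show eval (Sum.elim y z) (linY MA (P * Polynomial.X ^ ((r : ℕ) + cix α β c))) = _
      rw [SEC1_linY_eval, hy]
      have hdeg := SEC1_natDegree_mul P ((r : ℕ) + cix α β c) _ hPd
      simp only [Finset.mul_sum]
      rw [Finset.sum_comm]
      refine Finset.sum_congr rfl fun j _ => ?_
      have : ∀ k : Fin (n + 1), (P * Polynomial.X ^ ((r : ℕ) + cix α β c)).coeff k *
          (w (Sum.inl j) * s (Sum.inl j) ^ (k : ℕ)) =
          w (Sum.inl j) * ((P * Polynomial.X ^ ((r : ℕ) + cix α β c)).coeff k *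
            s (Sum.inl j) ^ (k : ℕ)) := by
        intro k; ring
      simp only [this]
      rw [← Finset.mul_sum, SEC1_eval_fin _ _ (by omega)]
      simp only [Polynomial.eval_mul, Polynomial.eval_pow, Polynomial.eval_X, pow_add]
      ring
    · have hr := r.2
      simp only [Matrix.fromBlocks_apply₂₁, Matrix.fromBlocks_apply₂₂, Matrix.zero_apply,
        zero_mul, Finset.sum_const_zero, zero_add, Matrix.mul_diagonal, Matrix.transpose_apply,
        Matrix.vandermonde_apply, Matrix.of_apply]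
      show eval (Sum.elim y z) (linZ MB (P * g * Polynomial.X ^ ((r : ℕ) + cix α β c))) = _
      rw [SEC1_linZ_eval, hz]
      have hpg : (P * g).natDegree ≤ e + (α + 1 - β) :=
        Polynomial.natDegree_mul_le.trans (by omega)
      have hdeg := SEC1_natDegree_mul (P * g) ((r : ℕ) + cix α β c) _ hpg
      simp only [Finset.mul_sum]
      rw [Finset.sum_comm]
      refine Finset.sum_congr rfl fun j _ => ?_
      have : ∀ k : Fin (n + 2), (P * g * Polynomial.X ^ ((r : ℕ) + cix α β c)).coeff k *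
          (w (Sum.inr j) * s (Sum.inr j) ^ (k : ℕ)) =
          w (Sum.inr j) *
            ((P * g * Polynomial.X ^ ((r : ℕ) + cix α β c)).coeff k *
            s (Sum.inr j) ^ (k : ℕ)) := by
        intro k; ring
      simp only [this]
      rw [← Finset.mul_sum, SEC1_eval_fin _ _ (by omega), Polynomial.eval_mul (p := P * g),
        Polynomial.eval_pow, Polynomial.eval_X, pow_add]
      ring
  rw [hprod, Matrix.det_mul, Matrix.det_fromBlocks_zero₂₁, Matrix.det_mul, Matrix.det_mul,
    Matrix.det_transpose, Matrix.det_transpose, Matrix.det_diagonal, Matrix.det_diagonal]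

theorem st_SEC2 : ST_SEC2.{w} := by
  intro K _ _ n u v t MA MB hF α β I hn h1 hβ
  set P := rootP t I with hP
  have hPd : P.natDegree = I.card := SEC1_natDegree_rootP t I
  have hP0 : P ≠ 0 := by
    rw [hP, rootP]
    exact Finset.prod_ne_zero_iff.mpr fun i _ => Polynomial.X_sub_C_ne_zero _
  obtain ⟨s, hs, hsP⟩ := SEC1_exists_points (K := K) (Fin α ⊕ Fin β) P hP0
  let w : Fin α ⊕ Fin β → K := fun j => (P.eval (s j))⁻¹
  let y : Fin (n + 1) → K := MA⁻¹.mulVec (fun k : Fin (n + 1) => ∑ j : Fin α,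
    w (Sum.inl j) * s (Sum.inl j) ^ (k : ℕ))
  let z : Fin (n + 2) → K := MB⁻¹.mulVec (fun k : Fin (n + 2) => ∑ j : Fin β,
    w (Sum.inr j) * s (Sum.inr j) ^ (k : ℕ))
  have hy : MA.mulVec y = (fun k : Fin (n + 1) => ∑ j : Fin α,
      w (Sum.inl j) * s (Sum.inl j) ^ (k : ℕ)) := by
    simp only [y]
    rw [Matrix.mulVec_mulVec, Matrix.mul_nonsing_inv _ (isUnit_iff_ne_zero.mpr hF.dA),
      Matrix.one_mulVec]
  have hz : MB.mulVec z = (fun k : Fin (n + 2) => ∑ j : Fin β,
      w (Sum.inr j) * s (Sum.inr j) ^ (k : ℕ)) := by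
    simp only [z]
    rw [Matrix.mulVec_mulVec, Matrix.mul_nonsing_inv _ (isUnit_iff_ne_zero.mpr hF.dB),
      Matrix.one_mulVec]
  let j0 : Fin β := ⟨0, h1⟩
  let g : Polynomial K := Polynomial.X - Polynomial.C (s (Sum.inr j0))
  have hg0 : g ≠ 0 := Polynomial.X_sub_C_ne_zero _
  have hgd : g.natDegree ≤ α + 1 - β := by
    simp only [g, Polynomial.natDegree_X_sub_C]; omega
  refine ⟨g, 1, hg0, one_ne_zero, hgd, by simp, fun l m hlm => ?_⟩
  have e1 := SEC2_eval (MA := MA) (MB := MB) α β I.card hn (by omega) P g hPd.le hgd s w y z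
    hy hz
  have e2 := SEC2_eval (MA := MA) (MB := MB) α β I.card hn (by omega) P 1 hPd.le (by simp)
    s w y z hy hz
  have hzero : ∏ j : Fin β, (w (Sum.inr j) * (P * g).eval (s (Sum.inr j))) = 0 :=
    Finset.prod_eq_zero (Finset.mem_univ j0) (by simp [g])
  rw [hzero, mul_zero, mul_zero, zero_mul] at e1
  have hw : ∀ j, w j * P.eval (s j) = 1 := fun j => inv_mul_cancel₀ (hsP j)
  have e2' : eval (Sum.elim y z) (secM MA MB P 1 α β).det ≠ 0 := by
    rw [e2]
    simp only [mul_one, hw, Finset.prod_const_one]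
    refine mul_ne_zero (mul_ne_zero ?_ ?_) (SEC1_vand_ne α β s hs)
    · rw [Matrix.det_vandermonde_ne_zero_iff]
      exact fun x y h => Sum.inl_injective (hs h)
    · rw [Matrix.det_vandermonde_ne_zero_iff]
      exact fun x y h => Sum.inr_injective (hs h)
  have hm : m = 0 := by
    have := congrArg (eval (Sum.elim y z)) hlm
    rw [map_add, map_mul, map_mul, eval_C, eval_C, e1, mul_zero, zero_add, map_zero] at this
    exact (mul_eq_zero.mp this).resolve_right e2'
  refine ⟨?_, hm⟩
  rw [hm, map_zero, zero_mul, add_zero] at hlm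
  have hD := (st_SEC1 K n u v t MA MB hF α β I hn (by omega) (by omega) g hg0 hgd).1
  exact C_eq_zero.mp ((mul_eq_zero.mp hlm).resolve_right hD)

end Pool.Agent.Helper30.EC
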